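import Pool.Agent.H84.KSJ.LOCDD
import Pool.Agent.H84.KEW.Sur2

/-! HEX: exactness of the complex of horizontal families at the points outside the special
fibre (helper84). -/

open CategoryTheory TopologicalSpace Opposite AlgebraicGeometry Limits
open Pool.Agent.H62.MK Pool.Agent.H84.KEW Pool.Agent.H19.KN
open Pool.Agent.H17.KW (kap Pts entry column dFam D dD Gersten topSh KSh redSh thick thickι Fsh AbSh
  cycK isLocalHom_dFam IsRes)
open Pool.Agent.H12.KG (Sp GenSp kA stA rho projStr)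

universe u

namespace Pool.Agent.H84.KSJ

open Pool.Agent.H12.KSJ

noncomputable section

/-- Exactness gives local liftings. -/
theorem locEx_of_exact {X : TopCat.{u}} {S : ShortComplex (Shf X)} (hS : S.Exact) (x : X) :
    LocExAt S.f S.g x := by
  intro U hx g hg
  have h1 : Epi (kernel.lift S.g S.f S.zero) := S.exact_iff_epi_kernel_lift.mp hS
  have h2 : (ShortComplex.mk (kernel.ι S.g) S.g (kernel.condition S.g)).Exact :=
    ShortComplex.exact_kernel S.g
  have h5 : Mono (kernel.ι S.g) := inferInstance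
  obtain ⟨k, hk⟩ : ∃ k : (kernel S.g).obj.obj (op U), (kernel.ι S.g).hom.app (op U) k = g :=
    TopCat.Sheaf.sections_exact_of_left_exact (X := X)
      (S := ShortComplex.mk (kernel.ι S.g) S.g (kernel.condition S.g)) h2 h5 g hg
  obtain ⟨V, hV, hxV, f, hf⟩ := locSurj_of_epi (kernel.lift S.g S.f S.zero) k hx
  refine ⟨V, hV, hxV, f, ?_⟩
  have h3 : kernel.lift S.g S.f S.zero ≫ kernel.ι S.g = S.f := kernel.lift_ι _ _ _
  have h4 : S.f.hom.app (op V) f = (kernel.ι S.g).hom.app (op V)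
      ((kernel.lift S.g S.f S.zero).hom.app (op V) f) :=
    congrArg (fun r : S.X₁ ⟶ S.X₂ => r.hom.app (op V) f) h3.symm
  rw [h4, hf, map_app, hk]

/-- Exactness of sheaves of all families, on germs. -/
theorem gen_of_locEx {X : TopCat.{u}} [NoetherianSpace X] {ι κ μ : Type u} {p : ι → X}
    {A : ι → Type u} [∀ i, AddCommGroup (A i)] {q : κ → X} {B : κ → Type u}
    [∀ i, AddCommGroup (B i)] {r : μ → X} {C : μ → Type u} [∀ i, AddCommGroup (C i)]
    (a : (Π₀ i, A i) →+ (Π₀ k, B k)) (ha : IsLocalHom p q a)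
    (b : (Π₀ i, B i) →+ (Π₀ k, C k)) (hb : IsLocalHom q r b) {x : X}
    (h : LocExAt (mapE a ha) (mapE b hb) x) (c : Π₀ k, B k) (hc : gen r C x (b c) = 0) :
    ∃ f : Π₀ i, A i, gen q B x (a f) = gen q B x c := by
  obtain ⟨V, hxV, _, hV⟩ := exists_keep_eq r (U := ⊤) (x := x) trivial
    (f := b c) (g := 0) (by rw [hc, map_zero])
  rw [map_zero] at hV
  obtain ⟨W, hWV, hxW, f, hf⟩ := h V hxV
    (show (E q B).sec V from ⟨keep q B V c, fun i hi => keep_apply_neg q _ hi⟩) (by
      refine Subtype.ext ?_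
      change keep r C V (b (keep q B V c)) = 0
      rw [keep_comp_keep hb, hV])
  refine ⟨(show (E p A).sec W from f).1, ?_⟩
  have h1 : keep q B W (a (show (E p A).sec W from f).1) = keep q B W (keep q B V c) :=
    congrArg Subtype.val hf
  rw [← gen_keep q hxW, h1, gen_keep q hxW, gen_keep q hxV]

/-- Surjectivity of sheaves of all families, on germs. -/
theorem gen_of_epi {X : TopCat.{u}} [NoetherianSpace X] {ι κ : Type u} {p : ι → X}
    {A : ι → Type u} [∀ i, AddCommGroup (A i)] {q : κ → X} {B : κ → Type u}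
    [∀ i, AddCommGroup (B i)]
    (a : (Π₀ i, A i) →+ (Π₀ k, B k)) (ha : IsLocalHom p q a) [Epi (mapE a ha)] (x : X)
    (c : Π₀ k, B k) : ∃ f : Π₀ i, A i, gen q B x (a f) = gen q B x c := by
  obtain ⟨W, _, hxW, f, hf⟩ := locSurj_of_epi (mapE a ha)
    (show (E q B).sec ⊤ from ⟨c, fun i hi => absurd trivial hi⟩) (x := x) trivial
  refine ⟨(show (E p A).sec W from f).1, ?_⟩
  have h1 : keep q B W (a (show (E p A).sec W from f).1) = keep q B W c :=
    congrArg Subtype.val hf
  rw [← gen_keep q hxW, h1, gen_keep q hxW]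

variable {X : Scheme.{u}} {A : Type u} [CommRing A] (f : X ⟶ Spec (CommRingCat.of A)) (π : A)

/-- The germ of the horizontal differential at a horizontal point. -/
theorem gen_dFam_exH (d s : ℕ) {x : X.toTopCat} (hx : ¬ Sp f π x)
    (g : Π₀ v : HPts f π d (s + 1), AH f π d (s + 1) v)
    (hg : gen (X := X.toTopCat) (pH f π d s) (AH f π d s) x (dH f π d s g) = 0) :
    gen (X := X.toTopCat) (fun v : Pts X d s => (v.1 : X)) (fun v => MilnorK (kap X v.1) s) x
      (dFam X d s (exH f π d (s + 1) g)) = 0 := by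
  refine DFinsupp.ext fun v => ?_
  by_cases hv : v.1 ⤳ x
  · have hs : ¬ Sp f π v.1 := fun h => hx (Pool.Agent.H15.KEW.Sp.mono hv h)
    have h1 := congrArg (fun t => t ⟨v, hs⟩) hg
    have h2 : gen (X := X.toTopCat) (pH f π d s) (AH f π d s) x (dH f π d s g) ⟨v, hs⟩ =
        dH f π d s g ⟨v, hs⟩ := gen_apply_pos (X := X.toTopCat) (pH f π d s) _ hv
    rw [gen_apply_pos (X := X.toTopCat) (fun v : Pts X d s => (v.1 : X)) _ hv]
    exact (h2.symm.trans h1 :)
  · rw [gen_apply_neg (X := X.toTopCat) (fun v : Pts X d s => (v.1 : X)) _ hv]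
    rfl

/-- Lifting of germs at a horizontal point. -/
theorem lift_hor (d s : ℕ) {x : X.toTopCat}
    (g : Π₀ v : HPts f π d s, AH f π d s v)
    (hg : gen (X := X.toTopCat) (pH f π d s) (AH f π d s) x g = g)
    (F : Π₀ v : Pts X d (s + 1), MilnorK (kap X v.1) (s + 1))
    (hF : gen (X := X.toTopCat) (fun v : Pts X d s => (v.1 : X)) (fun v => MilnorK (kap X v.1) s) x
      (dFam X d s F) = gen (X := X.toTopCat) (fun v : Pts X d s => (v.1 : X))
        (fun v => MilnorK (kap X v.1) s) x (exH f π d s g)) :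
    gen (X := X.toTopCat) (pH f π d s) (AH f π d s) x (dH f π d s (reH f π d (s + 1) F)) = g := by
  refine DFinsupp.ext fun v => ?_
  by_cases hv : v.1.1 ⤳ x
  · rw [gen_apply_pos (X := X.toTopCat) (pH f π d s) _ (show pH f π d s v ⤳ x from hv), dH_apply,
      dFam_exH_reH f π d s F v.1 v.2]
    have h1 := congrArg (fun t => t v.1) hF
    rw [gen_apply_pos (X := X.toTopCat) (fun v : Pts X d s => (v.1 : X)) _ hv,
      gen_apply_pos (X := X.toTopCat) (fun v : Pts X d s => (v.1 : X)) _ hv] at h1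
    exact h1.trans (exH_apply f π d s g v)
  · have h1 := congrArg (fun t => t v) hg
    rw [gen_apply_neg (X := X.toTopCat) (pH f π d s) _ (show ¬ pH f π d s v ⤳ x from hv)] at h1 ⊢
    exact h1

/-- HEX. -/
theorem pf_HEX : T_HEX.{u} := by
  intro A _ X _ f π e h x hx
  refine ⟨fun s hs g hg hd => ?_, fun g hg => ?_⟩
  · obtain ⟨F, hF⟩ := gen_of_locEx _ (isLocalHom_dFam X (e + 1) (s + 1)) _
      (isLocalHom_dFam X (e + 1) s) (locEx_of_exact (h.exact s hs) x) (exH f π (e + 1) (s + 1) g)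
      (gen_dFam_exH f π (e + 1) s hx g hd)
    exact ⟨_, lift_hor f π (e + 1) (s + 1) g hg F hF⟩
  · have := h.epi
    obtain ⟨F, hF⟩ := @gen_of_epi X.toTopCat _ _ _ _ _ _ _ _ _ _
      (isLocalHom_dFam X (e + 1) 0) h.epi x (exH f π (e + 1) 0 g)
    exact ⟨_, lift_hor f π (e + 1) 0 g hg F hF⟩

end

end Pool.Agent.H84.KSJ
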