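import Pool.Agent.H12.KSJ.Targets

/-! ISO: isolation, from the isolation of one symbol at one point (helper84). -/

open CategoryTheory TopologicalSpace Opposite AlgebraicGeometry Limits
open Pool.Agent.H62.MK Pool.Agent.H84.KEW Pool.Agent.H19.KN
open Pool.Agent.H17.KW (kap Pts entry column dFam D dD Gersten topSh KSh redSh thick thickι Fsh AbSh
  cycK isLocalHom_dFam)
open Pool.Agent.H12.KG (Sp GenSp kA stA rho projStr)

universe u

namespace Pool.Agent.H84.KSJ

open Pool.Agent.H12.KSJ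

noncomputable section

section abs

variable {X : TopCat.{u}} {ι : Type u} [DecidableEq ι] (p : ι → X) (A : ι → Type u)
    [∀ i, AddCommGroup (A i)]

theorem gen_single_pos {x : X} (v : ι) (a : A v) (h : p v ⤳ x) :
    gen p A x (DFinsupp.single v a) = DFinsupp.single v a := by
  refine DFinsupp.ext fun i => ?_
  by_cases hi : p i ⤳ x
  · exact gen_apply_pos p _ hi
  · rw [gen_apply_neg p _ hi, DFinsupp.single_eq_of_ne]
    rintro rfl
    exact hi h

theorem gen_single_neg {x : X} (v : ι) (a : A v) (h : ¬ p v ⤳ x) :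
    gen p A x (DFinsupp.single v a) = 0 := by
  refine DFinsupp.ext fun i => ?_
  by_cases hi : p i ⤳ x
  · rw [gen_apply_pos p _ hi, DFinsupp.single_eq_of_ne, DFinsupp.zero_apply]
    rintro rfl
    exact h hi
  · rw [gen_apply_neg p _ hi, DFinsupp.zero_apply]

/-- The families which can be isolated at `y`. -/
def isoSub (S : X → AddSubgroup (Π₀ i, A i)) (Y : X → Prop) (y : X) :
    AddSubgroup (Π₀ i, A i) where
  carrier := {g | ∃ g', gen p A y (g' - g) ∈ S y ∧ ∀ y', Y y' → y' ≠ y → gen p A y' g' ∈ S y'}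
  zero_mem' := ⟨0, by rw [sub_zero, map_zero]; exact zero_mem _,
    fun y' _ _ => by rw [map_zero]; exact zero_mem _⟩
  add_mem' := by
    rintro a b ⟨a', h1, h2⟩ ⟨b', h3, h4⟩
    refine ⟨a' + b', ?_, fun y' hd hne => ?_⟩
    · rw [add_sub_add_comm, map_add]
      exact add_mem h1 h3
    · rw [map_add]
      exact add_mem (h2 y' hd hne) (h4 y' hd hne)
  neg_mem' := by
    rintro a ⟨a', h1, h2⟩
    refine ⟨-a', ?_, fun y' hd hne => ?_⟩
    · rw [← neg_sub', map_neg]
      exact neg_mem h1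
    · rw [map_neg]
      exact neg_mem (h2 y' hd hne)

variable {A}

theorem single_mem_isoSub (S : X → AddSubgroup (Π₀ i, A i)) (Y : X → Prop) (y : X) (v : ι)
    (a : A v) (h : p v ⤳ y → ∃ a' : A v, DFinsupp.single v (a' - a) ∈ S y ∧
      ∀ y', Y y' → y' ≠ y → p v ⤳ y' → DFinsupp.single v a' ∈ S y') :
    DFinsupp.single v a ∈ isoSub p A S Y y := by
  by_cases hv : p v ⤳ y
  · obtain ⟨a', h1, h2⟩ := h hv
    refine ⟨DFinsupp.single v a', ?_, fun y' hd hne => ?_⟩
    · rw [← DFinsupp.single_sub, gen_single_pos p A v _ hv]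
      exact h1
    · by_cases hv' : p v ⤳ y'
      · rw [gen_single_pos p A v _ hv']
        exact h2 y' hd hne hv'
      · rw [gen_single_neg p A v _ hv']
        exact zero_mem _
  · refine ⟨0, ?_, fun y' _ _ => ?_⟩
    · rw [zero_sub, map_neg, gen_single_neg p A v _ hv]
      exact neg_mem (zero_mem _)
    · rw [map_zero]
      exact zero_mem _

theorem mem_of_single (S : AddSubgroup (Π₀ i, A i)) (h : ∀ v a, DFinsupp.single v a ∈ S)
    (g : Π₀ i, A i) : g ∈ S := by
  induction g using DFinsupp.induction with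
  | h0 => exact zero_mem _
  | ha v x g _ _ ih => exact add_mem (h v x) ih

theorem mem_of_sym {F : Type u} [Field F] (n : ℕ) {B : Type u} [AddCommGroup B]
    (φ : MilnorK F n →+ B) (S : AddSubgroup B) (h : ∀ a, φ (sym a) ∈ S) (x : MilnorK F n) :
    φ x ∈ S := by
  refine MilnorK.induction (p := fun x => φ x ∈ S) x ?_ h ?_ ?_
  · rw [map_zero]
    exact zero_mem _
  · intro x hx
    rw [map_neg]
    exact neg_mem hx
  · intro x y hx hy
    rw [map_add]
    exact add_mem hx hy

end abs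

/-- ISO. -/
theorem pf_ISO (hS : T_ISY.{u}) : T_ISO.{u} := by
  classical
  intro A _ X _ f π e m hm hdim hW R hR y hy hdy g
  have key : g ∈ isoSub (X := X.toTopCat) (pH f π (e + 1) (m + 1)) (AH f π (e + 1) (m + 1))
      (fun y => R (m + 1) y) (fun y' => y' ∈ Ysp f π ∧ dl (X := X) (e + 1) y' = m + 1) y := by
    refine mem_of_single _ (fun v x => ?_) g
    refine mem_of_sym (F := kap X v.1.1) (m + 1)
      (DFinsupp.singleAddHom (fun v : HPts f π (e + 1) (m + 1) => AH f π (e + 1) (m + 1) v) v) _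
      (fun a => ?_) x
    refine single_mem_isoSub (X := X.toTopCat) (pH f π (e + 1) (m + 1)) _ _ _ v _ (fun hvy => ?_)
    obtain ⟨g', h1, h2⟩ := hS A X f π e m hm hdim hW R hR v y hvy hy hdy a
    exact ⟨sym g', h1, fun y' hd hne hvy' => h2 y' hvy' hd.1 hd.2 hne⟩
  obtain ⟨g', h1, h2⟩ := key
  exact ⟨g', h1, fun y' hy' hd hne => h2 y' ⟨hy', hd⟩ hne⟩

end

end Pool.Agent.H84.KSJ
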