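import Pool.Agent.H12.KSJ.Targets

/-! LOCDD: the horizontal differential is local and has square zero (helper84). -/

open CategoryTheory TopologicalSpace Opposite AlgebraicGeometry Limits
open Pool.Agent.H62.MK Pool.Agent.H84.KEW Pool.Agent.H19.KN
open Pool.Agent.H17.KW (kap Pts entry column dFam D dD Gersten topSh KSh redSh thick thickι Fsh AbSh
  cycK isLocalHom_dFam)
open Pool.Agent.H12.KG (Sp GenSp kA stA rho projStr)

universe u

namespace Pool.Agent.H84.KSJ

open Pool.Agent.H12.KSJ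

noncomputable section

variable {X : Scheme.{u}}

/-- The differentials compose to zero. -/
theorem dd_zero [IsNoetherian X] {e : ℕ} (h : Gersten X e) (s : ℕ)
    (c : Π₀ v : Pts X (e + 1) (s + 2), MilnorK (kap X v.1) (s + 2)) :
    dFam X (e + 1) s (dFam X (e + 1) (s + 1) c) = 0 := by
  have h1 := h.w s
  let c' : (D X (e + 1) (s + 2)).obj.obj (op ⊤) :=
    show (E (X := X.toTopCat) (fun v : Pts X (e + 1) (s + 2) => (v.1 : X))
      (fun v => MilnorK (kap X v.1) (s + 2))).sec ⊤ from ⟨c, fun _ hi => absurd trivial hi⟩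
  have h2 := congrArg (fun r : D X (e + 1) (s + 2) ⟶ D X (e + 1) s => r.hom.app (op ⊤) c') h1
  have h3 := congrArg Subtype.val h2
  change keep (X := X.toTopCat) (fun v : Pts X (e + 1) s => (v.1 : X))
    (fun v => MilnorK (kap X v.1) s) ⊤ (dFam X (e + 1) s
    (keep (X := X.toTopCat) (fun v : Pts X (e + 1) (s + 1) => (v.1 : X))
    (fun v => MilnorK (kap X v.1) (s + 1)) ⊤ (dFam X (e + 1) (s + 1) c))) = 0 at h3
  have h4 : ∀ (t : ℕ) (g : Π₀ v : Pts X (e + 1) t, MilnorK (kap X v.1) t),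
      keep (X := X.toTopCat) (fun v : Pts X (e + 1) t => (v.1 : X))
        (fun v => MilnorK (kap X v.1) t) ⊤ g = g := by
    intro t g
    refine DFinsupp.ext fun i => ?_
    exact keep_apply_pos (X := X.toTopCat) (fun v : Pts X (e + 1) t => (v.1 : X)) g trivial
  rwa [h4, h4] at h3

variable {A : Type u} [CommRing A] (f : X ⟶ Spec (CommRingCat.of A)) (π : A)

/-- The values of the horizontal differential. -/
theorem dH_apply (d s : ℕ) (g : Π₀ v : HPts f π d (s + 1), AH f π d (s + 1) v)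
    (v : HPts f π d s) : dH f π d s g v = dFam X d s (exH f π d (s + 1) g) v.1 := rfl

/-- Locality of the extension by zero. -/
theorem exH_eq_zero (d s : ℕ) (g : Π₀ v : HPts f π d s, AH f π d s v) (w : Pts X d s)
    (h : ∀ hw : ¬ Sp f π w.1, g ⟨w, hw⟩ = 0) : exH f π d s g w = 0 := by
  by_cases hw : Sp f π w.1
  · exact exH_apply_of_sp f π d s g w hw
  · exact (exH_apply f π d s g ⟨w, hw⟩).trans (h hw)

/-- The horizontal differential is local. -/
theorem isLocalHom_dH (d s : ℕ) : IsLocalHom (X := X.toTopCat) (pH f π d (s + 1)) (pH f π d s)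
    (dH f π d s) := by
  intro g v hg
  rw [dH_apply]
  refine isLocalHom_dFam X d s _ _ fun w hw => ?_
  exact exH_eq_zero f π d (s + 1) g w fun hs => hg ⟨w, hs⟩ hw

/-- At a horizontal point only the horizontal part of a family matters. -/
theorem dFam_exH_reH (d s : ℕ) (F : Π₀ v : Pts X d (s + 1), MilnorK (kap X v.1) (s + 1))
    (v : Pts X d s) (hv : ¬ Sp f π v.1) :
    dFam X d s (exH f π d (s + 1) (reH f π d (s + 1) F)) v = dFam X d s F v := by
  rw [← sub_eq_zero, ← DFinsupp.sub_apply, ← map_sub]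
  refine isLocalHom_dFam X d s _ _ fun w hw => ?_
  have hs : ¬ Sp f π w.1 := fun h => hv (Pool.Agent.H15.KEW.Sp.mono hw h)
  rw [DFinsupp.sub_apply, sub_eq_zero]
  exact (exH_apply f π d (s + 1) _ ⟨w, hs⟩).trans (reH_apply f π d (s + 1) F ⟨w, hs⟩)

/-- LOCDD. -/
theorem pf_LOCDD : T_LOCDD.{u} := by
  intro A _ X _ f π e h
  refine ⟨fun s => isLocalHom_dH f π (e + 1) s, fun s g => dd_zero h s g, fun s g => ?_⟩
  refine DFinsupp.ext fun v => ?_
  rw [dH_apply]
  change dFam X (e + 1) s (exH f π (e + 1) (s + 1) (reH f π (e + 1) (s + 1)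
    (dFam X (e + 1) (s + 1) (exH f π (e + 1) (s + 2) g)))) v.1 = 0
  rw [dFam_exH_reH f π (e + 1) s _ v.1 v.2, dd_zero h]
  rfl

end

end Pool.Agent.H84.KSJ
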