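import Pool.Agent.H84.KSJ.HEX

/-! NUX: the embedding of the kernel of the restriction map in the sheaf of horizontal families
(helper84). -/

open CategoryTheory TopologicalSpace Opposite AlgebraicGeometry Limits
open Pool.Agent.H62.MK Pool.Agent.H84.KEW Pool.Agent.H19.KN
open Pool.Agent.H17.KW (kap Pts entry column dFam D dD Gersten topSh KSh redSh thick thickι Fsh AbSh
  cycK isLocalHom_dFam IsRes dirIm KModSh)
open Pool.Agent.H12.KG (Sp GenSp kA stA rho projStr)

universe u

namespace Pool.Agent.H84.KSJ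

open Pool.Agent.H12.KSJ

noncomputable section

section thickpoints

variable {A B : Type u} [CommRing A] [CommRing B] {X Y : Scheme.{u}}

theorem stA_comp_spec (g : Y ⟶ Spec (CommRingCat.of B)) (q : A →+* B) (y : Y) (a : A) :
    stA (g ≫ Spec.map (CommRingCat.ofHom q)) y a = stA g y (q a) := by
  have h := Scheme.ΓSpecIso_inv_naturality (CommRingCat.ofHom q)
  have h1 : (Scheme.ΓSpecIso (CommRingCat.of A)).inv ≫
      (g ≫ Spec.map (CommRingCat.ofHom q)).appTop ≫ Y.presheaf.germ ⊤ y trivial =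
      CommRingCat.ofHom q ≫ (Scheme.ΓSpecIso (CommRingCat.of B)).inv ≫ g.appTop ≫
        Y.presheaf.germ ⊤ y trivial := by
    rw [Scheme.Hom.comp_appTop, reassoc_of% h, Category.assoc]
  exact congrArg (fun r : CommRingCat.of A ⟶ Y.presheaf.stalk y => r.hom a) h1

theorem stalkMap_stA (i : Y ⟶ X) (f : X ⟶ Spec (CommRingCat.of A)) (y : Y) (a : A) :
    (i.stalkMap y).hom (stA f (i y) a) = stA (i ≫ f) y a := by
  have h1 : ((Scheme.ΓSpecIso (CommRingCat.of A)).inv ≫ f.appTop ≫
      X.presheaf.germ ⊤ (i y) trivial) ≫ i.stalkMap y =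
      (Scheme.ΓSpecIso (CommRingCat.of A)).inv ≫ (i ≫ f).appTop ≫
        Y.presheaf.germ ⊤ y trivial := by
    rw [Scheme.Hom.comp_appTop, Category.assoc, Category.assoc, Category.assoc]
    congr 2
    exact Scheme.Hom.germ_stalkMap i ⊤ y trivial
  exact congrArg (fun r : CommRingCat.of A ⟶ Y.presheaf.stalk y => r.hom a) h1

/-- The points of the thickening are points of the special fibre. -/
theorem sp_thick [IsLocalRing A] (f : X ⟶ Spec (CommRingCat.of A)) {π : A}
    (hπ : π ∈ IsLocalRing.maximalIdeal A) (n : ℕ) (y : thick f n) :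
    Sp f π (thickι f n y) := by
  intro hu
  have h1 := hu.map ((thickι f n).stalkMap y).hom
  rw [stalkMap_stA] at h1
  let g : thick f n ⟶ Spec (CommRingCat.of (A ⧸ IsLocalRing.maximalIdeal A ^ n)) :=
    pullback.snd _ _
  have h2 : thickι f n ≫ f = g ≫ Spec.map (CommRingCat.ofHom
      (Ideal.Quotient.mk (IsLocalRing.maximalIdeal A ^ n))) := pullback.condition
  rw [h2, stA_comp_spec] at h1
  have h3 := h1.pow n
  rw [← map_pow, ← map_pow, Ideal.Quotient.eq_zero_iff_mem.mpr (Ideal.pow_mem_pow hπ n),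
    map_zero] at h3
  exact not_isUnit_zero h3

end thickpoints

/-- Sections killed by a morphism come from the kernel. -/
theorem lift_kernel {X : TopCat.{u}} {F G : Shf X} (ρ : F ⟶ G) {U : Opens X}
    (s : F.obj.obj (op U)) (h : ρ.hom.app (op U) s = 0) :
    ∃ k : (kernel ρ).obj.obj (op U), (kernel.ι ρ).hom.app (op U) k = s := by
  have h2 : (ShortComplex.mk (kernel.ι ρ) ρ (kernel.condition ρ)).Exact :=
    ShortComplex.exact_kernel ρ
  have h5 : Mono (kernel.ι ρ) := inferInstance
  exact TopCat.Sheaf.sections_exact_of_left_exact (X := X)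
      (S := ShortComplex.mk (kernel.ι ρ) ρ (kernel.condition ρ)) h2 h5 s h

/-- Sections over an open set with empty preimage are zero. -/
theorem dirIm_eq_zero {X Y : Scheme.{u}} (i : Y ⟶ X) (F : AbSh Y) (U : Opens X.toTopCat)
    (h : ∀ y : Y, i y ∉ U) (s : (dirIm i F).obj.obj (op U)) : s = 0 := by
  refine TopCat.Presheaf.section_ext (F := (F : TopCat.Sheaf AddCommGrpCat.{u} Y.toTopCat))
    (U := (Opens.map i.base).obj U) s 0 (fun y hy => ?_)
  exact absurd hy (h y)

section main

variable {X : Scheme.{u}} {A : Type u} [CommRing A] (f : X ⟶ Spec (CommRingCat.of A)) (π : A)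

/-- The horizontal part of families is injective if all points are horizontal. -/
theorem mono_reH [IsNoetherian X] (d s : ℕ) (h : ∀ v : Pts X d s, ¬ Sp f π v.1) :
    Mono (mapE (X := X.toTopCat) (reH f π d s) (isLocalHom_reH f π d s)) := by
  refine mono_of_injective _ (fun U c hc => ?_)
  let c' : (E (X := X.toTopCat) (fun v : Pts X d s => (v.1 : X))
    (fun v => MilnorK (kap X v.1) s)).sec U := c
  have h1 : keep (X := X.toTopCat) (pH f π d s) (AH f π d s) U (reH f π d s c'.1) = 0 :=
    congrArg Subtype.val hc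
  refine Subtype.ext (DFinsupp.ext fun v => ?_)
  change c'.1 v = 0
  by_cases hv : v.1 ∈ U
  · have h2 := congrArg (fun t => t ⟨v, h v⟩) h1
    have h3 : keep (X := X.toTopCat) (pH f π d s) (AH f π d s) U (reH f π d s c'.1) ⟨v, h v⟩ =
        reH f π d s c'.1 ⟨v, h v⟩ := keep_apply_pos (X := X.toTopCat) (pH f π d s) _ hv
    exact (reH_apply f π d s c'.1 ⟨v, h v⟩).symm.trans (h3.symm.trans h2)
  · exact c'.2 v hv

/-- The family of a section of `NSh`. -/
theorem famOf_nuSh [IsNoetherian X] [IsLocalRing A] (q e n : ℕ) {U : Opens X.toTopCat}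
    (c : (NSh f q e n).obj.obj (op U)) :
    ∃ F : Π₀ v : Pts X (e + 1) (e + 1), MilnorK (kap X v.1) (e + 1),
      F = (show (E (X := X.toTopCat) (fun v : Pts X (e + 1) (e + 1) => (v.1 : X))
        (fun v => MilnorK (kap X v.1) (e + 1))).sec U from
          (topSh X (e + 1)).hom.app (op U) ((kernel.ι (redSh (thickι f n) q (e + 1))).hom.app
            (op U) c)).1 ∧
      famOf (X := X.toTopCat) (pH f π (e + 1) (e + 1)) (AH f π (e + 1) (e + 1))
        (nuSh f π q e n) c = keep (X := X.toTopCat) (pH f π (e + 1) (e + 1))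
          (AH f π (e + 1) (e + 1)) U (reH f π (e + 1) (e + 1) F) :=
  ⟨_, rfl, rfl⟩

end main

/-- NUX. -/
theorem pf_NUX : T_NUX.{u} := by
  intro A _ _ _ X _ f π hπ e q n hn hv h
  have hπm : π ∈ IsLocalRing.maximalIdeal A := (IsLocalRing.mem_maximalIdeal π).2 hπ.not_isUnit
  refine ⟨?_, fun U c x hx => ?_, fun x hx g hg hd => ?_⟩
  · have h1 : Mono (topSh X (e + 1)) := h.mono
    have h2 := mono_reH f π (e + 1) (e + 1) hv
    have h3 : Mono (kernel.ι (redSh (thickι f n) q (e + 1))) := inferInstance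
    exact @mono_comp _ _ _ _ _ _ h3 _ (@mono_comp _ _ _ _ _ _ h1 _ h2)
  · obtain ⟨F, hF, hc⟩ := famOf_nuSh f π q e n c
    rw [hc]
    have h1 : dFam X (e + 1) e F = dFam X (e + 1) e F := rfl
    have h2 := comp_app_eq_zero h.w0 ((kernel.ι (redSh (thickι f n) q (e + 1))).hom.app (op U) c)
    have h3 : keep (X := X.toTopCat) (fun v : Pts X (e + 1) e => (v.1 : X))
        (fun v => MilnorK (kap X v.1) e) U (dFam X (e + 1) e F) = 0 := by
      rw [hF]
      exact congrArg Subtype.val h2
    refine DFinsupp.ext fun v => ?_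
    by_cases hvx : v.1.1 ⤳ x
    · have hvU : v.1.1 ∈ U := hvx.mem_open U.2 hx
      have h4 := congrArg (fun t => t v.1) h3
      rw [keep_apply_pos (X := X.toTopCat) (fun v : Pts X (e + 1) e => (v.1 : X)) _ hvU] at h4
      have h5 := congrArg (fun t => t v) (keep_comp_keep (X := X.toTopCat)
        (isLocalHom_dH f π (e + 1) e) U (reH f π (e + 1) (e + 1) F))
      rw [keep_apply_pos (X := X.toTopCat) (pH f π (e + 1) e) _ (show pH f π (e + 1) e v ∈ U
        from hvU), keep_apply_pos (X := X.toTopCat) (pH f π (e + 1) e) _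
        (show pH f π (e + 1) e v ∈ U from hvU)] at h5
      rw [gen_apply_pos (X := X.toTopCat) (pH f π (e + 1) e) _
        (show pH f π (e + 1) e v ⤳ x from hvx), h5, dH_apply,
        dFam_exH_reH f π (e + 1) e F v.1 v.2]
      exact h4
    · rw [gen_apply_neg (X := X.toTopCat) (pH f π (e + 1) e) _
        (show ¬ pH f π (e + 1) e v ⤳ x from hvx)]
      rfl
  · have hopen : IsOpen {y : X | ¬ Sp f π y} := Pool.Agent.H15.KEW.isOpen_not_sp f π
    have h1 := gen_dFam_exH f π (e + 1) e hx g hd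
    obtain ⟨V, hxV, hVS, hV⟩ := exists_keep_eq (X := X.toTopCat)
      (fun v : Pts X (e + 1) e => (v.1 : X)) (U := ⟨{y : X | ¬ Sp f π y}, hopen⟩) (x := x) hx
      (f := dFam X (e + 1) e (exH f π (e + 1) (e + 1) g)) (g := 0) (by rw [h1, map_zero])
    rw [map_zero] at hV
    obtain ⟨W, hWV, hxW, s, hs⟩ := locEx_of_exact h.exact0 x V hxV
      (show (E (X := X.toTopCat) (fun v : Pts X (e + 1) (e + 1) => (v.1 : X))
        (fun v => MilnorK (kap X v.1) (e + 1))).sec V from
        ⟨keep (X := X.toTopCat) (fun v : Pts X (e + 1) (e + 1) => (v.1 : X)) _ V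
          (exH f π (e + 1) (e + 1) g), fun i hi => keep_apply_neg (X := X.toTopCat) _ _ hi⟩) (by
        refine Subtype.ext ?_
        change keep (X := X.toTopCat) (fun v : Pts X (e + 1) e => (v.1 : X)) _ V
          (dFam X (e + 1) e (keep (X := X.toTopCat) (fun v : Pts X (e + 1) (e + 1) => (v.1 : X)) _ V
            (exH f π (e + 1) (e + 1) g))) = 0
        rw [keep_comp_keep (X := X.toTopCat) (isLocalHom_dFam X (e + 1) e), hV])
    have h2 : (redSh (thickι f n) q (e + 1)).hom.app (op W) s = 0 :=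
      dirIm_eq_zero (thickι f n) _ W (fun y hy => hVS (hWV hy) (sp_thick f hπm n y)) _
    obtain ⟨k, hk⟩ := lift_kernel (X := X.toTopCat) (redSh (thickι f n) q (e + 1)) s h2
    obtain ⟨F, hF, hc⟩ := famOf_nuSh f π q e n k
    refine ⟨W, hxW, k, ?_⟩
    rw [hc]
    have h4 : F = keep (X := X.toTopCat) (fun v : Pts X (e + 1) (e + 1) => (v.1 : X)) _ W
        (keep (X := X.toTopCat) (fun v : Pts X (e + 1) (e + 1) => (v.1 : X)) _ V
          (exH f π (e + 1) (e + 1) g)) := by
      rw [hF, hk]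
      exact congrArg Subtype.val hs
    refine DFinsupp.ext fun v => ?_
    by_cases hvx : v.1.1 ⤳ x
    · have hvW : v.1.1 ∈ W := hvx.mem_open W.2 hxW
      rw [gen_apply_pos (X := X.toTopCat) (pH f π (e + 1) (e + 1)) _
        (show pH f π (e + 1) (e + 1) v ⤳ x from hvx),
        keep_apply_pos (X := X.toTopCat) (pH f π (e + 1) (e + 1)) _
        (show pH f π (e + 1) (e + 1) v ∈ W from hvW), reH_apply, h4,
        keep_apply_pos (X := X.toTopCat) (fun v : Pts X (e + 1) (e + 1) => (v.1 : X)) _ hvW,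
        keep_apply_pos (X := X.toTopCat) (fun v : Pts X (e + 1) (e + 1) => (v.1 : X)) _
          (hWV hvW)]
      exact exH_apply f π (e + 1) (e + 1) g v
    · have h5 := congrArg (fun t => t v) hg
      rw [gen_apply_neg (X := X.toTopCat) (pH f π (e + 1) (e + 1)) _
        (show ¬ pH f π (e + 1) (e + 1) v ⤳ x from hvx)] at h5 ⊢
      exact h5

end

end Pool.Agent.H84.KSJ
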